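import Pool.Agent.H.MP_ea0cba_gt.Sol

open Set Topology Filter Complex
open scoped Real

namespace Pool.Agent.H.MP_ea0cba_gt

abbrev E0 : Type := ℂ × (ℕ → ℂ)
abbrev EE : Type := E0 × ℂ

noncomputable def F (c : ℕ → ℂ) (t : ℝ) : E0 :=
  (ex (π * max t 0), fun n => ((1 - max (-t) 0 : ℝ) : ℂ) * (c n * phi (max t 0) n))

lemma F_cont : Continuous fun p : (ℕ → ℂ) × ℝ => F p.1 p.2 := by
  unfold F
  refine Continuous.prodMk (by fun_prop) (continuous_pi fun n => ?_)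
  have : Continuous fun p : (ℕ → ℂ) × ℝ => phi (max p.2 0) n :=
    (continuous_apply n).comp (phi_cont.comp (by fun_prop))
  fun_prop

lemma F_cont' (c : ℕ → ℂ) : Continuous (F c) := F_cont.comp (Continuous.prodMk_right c)

lemma F_neg_one (c : ℕ → ℂ) : F c (-1) = (1, 0) := by
  refine Prod.ext ?_ ?_
  · simp [F]
  · funext n
    simp [F]

lemma F_norm {c : ℕ → ℂ} (hc : c ∈ Cs) {t : ℝ} (ht : t ∈ Icc (-1 : ℝ) 1) :
    ‖(F c t).2 0‖ = 1 - max (-t) 0 := by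
  have : 0 ≤ 1 - max (-t) 0 := by
    rw [sub_nonneg]
    exact max_le (by linarith [ht.1]) zero_le_one
  simp only [F, norm_mul, hc.2, norm_one, norm_phi, mul_one, Complex.norm_real, Real.norm_eq_abs]
  exact abs_of_nonneg this

lemma mem_pi {t : ℝ} (ht : t ∈ Icc (-1 : ℝ) 1) : π * max t 0 ∈ Icc 0 π := by
  have := Real.pi_pos
  have h1 : max t 0 ≤ 1 := max_le ht.2 zero_le_one
  have h2 : 0 ≤ max t 0 := le_max_right _ _
  constructor <;> nlinarith

lemma F_inj {c c' : ℕ → ℂ} (hc : c ∈ Cs) (hc' : c' ∈ Cs) {t t' : ℝ} (ht : t ∈ Icc (-1 : ℝ) 1)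
    (ht' : t' ∈ Icc (-1 : ℝ) 1) (h : F c t = F c' t') : t = t' ∧ (t ≠ -1 → c = c') := by
  have h1 : max (-t) 0 = max (-t') 0 := by
    have := F_norm hc ht
    rw [h, F_norm hc' ht'] at this
    linarith
  have h2 : max t 0 = max t' 0 := by
    have h3 := congrArg (fun x : E0 => x.1.re) h
    simp only [F, ex_re] at h3
    exact mul_left_cancel₀ Real.pi_pos.ne' (Real.injOn_cos (mem_pi ht) (mem_pi ht') h3)
  have h3 : t = t' := by
    rw [← max_zero_sub_max_neg_zero_eq_self t, ← max_zero_sub_max_neg_zero_eq_self t', h1, h2]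
  refine ⟨h3, fun h4 => ?_⟩
  subst h3
  funext n
  have h5 := congrArg (fun x : E0 => x.2 n) h
  simp only [F] at h5
  have h6 : ((1 - max (-t) 0 : ℝ) : ℂ) ≠ 0 := by
    rw [Complex.ofReal_ne_zero, sub_ne_zero]
    have : -t < 1 := by
      have := lt_of_le_of_ne ht.1 h4.symm
      linarith
    exact (max_lt this zero_lt_one).ne'
  exact mul_right_cancel₀ (phi_ne _ _) (mul_left_cancel₀ h6 h5)

def L0 : Set E0 := (fun p : (ℕ → ℂ) × ℝ => F p.1 p.2) '' (Cs ×ˢ Icc (-1 : ℝ) 1)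

def L1 : Set EE := L0 ×ˢ {0}

lemma L0_compact : IsCompact L0 := (cs_compact.prod isCompact_Icc).image F_cont

lemma L1_compact : IsCompact L1 := L0_compact.prod isCompact_singleton

lemma mem_L0 {c : ℕ → ℂ} (hc : c ∈ Cs) {t : ℝ} (ht : t ∈ Icc (-1 : ℝ) 1) : F c t ∈ L0 :=
  ⟨(c, t), ⟨hc, ht⟩, rfl⟩

lemma mem_L1 {x : EE} : x ∈ L1 ↔ ∃ c ∈ Cs, ∃ t ∈ Icc (-1 : ℝ) 1, x = (F c t, 0) := by
  constructor
  · rintro ⟨⟨p, hp, h⟩, h2⟩
    exact ⟨p.1, hp.1, p.2, hp.2, Prod.ext h.symm h2⟩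
  · rintro ⟨c, hc, t, ht, rfl⟩
    exact ⟨mem_L0 hc ht, rfl⟩

lemma L1_conn : IsConnected L1 := by
  have h0 : (((1, 0), 0) : EE) ∈ L1 := mem_L1.2 ⟨1, cs_one, -1, by simp, by rw [F_neg_one]⟩
  refine ⟨⟨_, h0⟩, isPreconnected_of_forall (((1, 0), 0) : EE) fun y hy => ?_⟩
  obtain ⟨c, hc, t, ht, rfl⟩ := mem_L1.1 hy
  refine ⟨(fun s => (F c s, 0)) '' Icc (-1) 1, ?_, ⟨-1, by simp, by simp [F_neg_one]⟩,
    ⟨t, ht, rfl⟩, isPreconnected_Icc.image _ ?_⟩
  · rintro _ ⟨s, hs, rfl⟩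
    exact mem_L1.2 ⟨c, hc, s, hs, rfl⟩
  · exact ((F_cont' c).prodMk continuous_const).continuousOn

lemma L1_HD : HD L1 := by
  intro M hM hcM hcon hnt
  by_cases h : ∃ c ∈ Cs, M ⊆ (fun s => ((F c s, 0) : EE)) '' Icc (-1) 1
  · obtain ⟨c, hc, h⟩ := h
    refine arcHD ((F_cont' c).prodMk continuous_const) (fun s hs t ht hst => ?_) M h hcM hcon hnt
    exact (F_inj hc hc hs ht (congrArg Prod.fst hst)).1
  push Not at h
  obtain ⟨x, hx, hxv⟩ := hnt.exists_ne (((1, 0), 0) : EE)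
  obtain ⟨c, hc, t, ht, rfl⟩ := mem_L1.1 (hM hx)
  have ht1 : t ≠ -1 := fun h => hxv (by rw [h, F_neg_one])
  obtain ⟨y, hy, hyc⟩ := not_subset.1 (h c hc)
  obtain ⟨c', hc', t', ht', rfl⟩ := mem_L1.1 (hM hy)
  have ht1' : t' ≠ -1 := fun h => hyc ⟨-1, by simp, by simp only [h, F_neg_one]⟩
  have hcc : c' ≠ c := fun h => hyc ⟨t', ht', by rw [h]⟩
  obtain ⟨n, hn⟩ := Function.ne_iff.1 hcc
  let G : (ℕ → ℂ) × ℝ → EE := fun p => (F p.1 p.2, 0)
  have hG : Continuous G := F_cont.prodMk continuous_const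
  have hU : IsCompact {d | d ∈ Cs ∧ d n = c n} :=
    cs_compact.inter_right (isClosed_eq (continuous_apply n) continuous_const)
  refine cut (A := G '' ({d | d ∈ Cs ∧ d n = c n} ×ˢ Icc (-1) 1))
    (B := G '' ({d | d ∈ Cs ∧ d n ≠ c n} ×ˢ Icc (-1) 1)) (z := ((1, 0), 0)) hcM hcon
    ((hU.prod isCompact_Icc).image hG).isClosed
    (((cs_sep c n).prod isCompact_Icc).image hG).isClosed ?_ ?_ ?_ ?_
  · intro z hz
    obtain ⟨e, he, s, hs, rfl⟩ := mem_L1.1 (hM hz)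
    by_cases h : e n = c n
    · exact Or.inl ⟨(e, s), ⟨⟨he, h⟩, hs⟩, rfl⟩
    · exact Or.inr ⟨(e, s), ⟨⟨he, h⟩, hs⟩, rfl⟩
  · rintro z ⟨⟨_, p, hp, rfl⟩, q, hq, h⟩
    have := F_inj hq.1.1 hp.1.1 hq.2 hp.2 (congrArg Prod.fst h)
    by_cases h1 : q.2 = -1
    · rw [← h]
      simp only [G, h1, F_neg_one]
      rfl
    · exact absurd (this.2 h1 ▸ hp.1.2) hq.1.2
  · intro h
    obtain ⟨p, hp, h1⟩ := h hy
    have := F_inj hc' hp.1.1 ht' hp.2 (congrArg Prod.fst h1).symm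
    exact hn (this.2 ht1' ▸ hp.1.2)
  · intro h
    obtain ⟨p, hp, h1⟩ := h hx
    have := F_inj hc hp.1.1 ht hp.2 (congrArg Prod.fst h1).symm
    exact hp.1.2 (this.2 ht1 ▸ rfl)

def io (x : EE) : EE := ((-x.1.1, x.1.2), x.2)

lemma io_io (x : EE) : io (io x) = x := by simp [io]
lemma io_cont : Continuous io := by unfold io; fun_prop
lemma io_emb : IsEmbedding io := IsEmbedding.of_leftInverse io_io io_cont io_cont
lemma io_img (K : Set EE) : io '' K = io ⁻¹' K :=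
  congrFun (image_eq_preimage_of_inverse io_io io_io) K

lemma io_zero {c : ℕ → ℂ} (hc : c ∈ Cs) : io (F c 0, 0) ∈ L1 := by
  refine mem_L1.2 ⟨c * phi (-1), ⟨sol_mul hc.1 _, by simp [hc.2, phi_neg_one_zero]⟩, 1, by simp, ?_⟩
  refine Prod.ext (Prod.ext ?_ ?_) rfl
  · simp [io, F, ex_pi]
  · funext n
    have := congrFun (phi_add (-1) 1) n
    simp only [neg_add_cancel, phi_zero, Pi.one_apply, Pi.mul_apply] at this
    simp [io, F, mul_assoc, ← this]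

lemma io_one {c : ℕ → ℂ} (hc : c ∈ Cs) : io (F c 1, 0) ∈ L1 := by
  refine mem_L1.2 ⟨c * phi 1, ⟨sol_mul hc.1 _, by simp [hc.2, phi_one_zero]⟩, 0, by simp, ?_⟩
  refine Prod.ext (Prod.ext ?_ ?_) rfl
  · simp [io, F, ex_pi]
  · funext n
    simp [io, F]

lemma io_not {c : ℕ → ℂ} (hc : c ∈ Cs) {t : ℝ} (ht : t ∈ Icc (-1 : ℝ) 1) (h0 : t ≠ 0) (h1 : t ≠ 1) :
    io (F c t, 0) ∉ L1 := by
  intro h
  obtain ⟨c', hc', t', ht', h⟩ := mem_L1.1 h
  have h2 : -ex (π * max t 0) = ex (π * max t' 0) := congrArg (fun x : EE => x.1.1) h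
  have h3 : (F c t).2 = (F c' t').2 := congrArg (fun x : EE => x.1.2) h
  have hp := Real.pi_pos
  rcases lt_or_gt_of_ne h0 with h4 | h4
  · rw [max_eq_right h4.le] at h2
    have h5 := congrArg Complex.re h2
    simp only [mul_zero, ex_zero, neg_re, one_re, ex_re] at h5
    rw [← Real.cos_pi] at h5
    have h6 := Real.injOn_cos ⟨hp.le, le_rfl⟩ (mem_pi ht') h5
    have h7 : max t' 0 = 1 := by
      apply mul_left_cancel₀ hp.ne'
      linarith
    have h8 : t' = 1 := by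
      rcases le_total t' 0 with h | h
      · rw [max_eq_right h] at h7; linarith
      · rwa [max_eq_left h] at h7
    have h9 := F_norm hc ht
    rw [h3, F_norm hc' ht', h8, max_eq_left (by linarith : (0 : ℝ) ≤ -t)] at h9
    norm_num at h9
    exact h0 h9
  · rw [max_eq_left h4.le] at h2
    have h5 := congrArg Complex.im h2
    simp only [neg_im, ex_im] at h5
    have h6 := Real.sin_nonneg_of_mem_Icc (mem_pi ht')
    have h7 : 0 < Real.sin (π * t) := Real.sin_pos_of_pos_of_lt_pi (by positivity) (by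
      have := lt_of_le_of_ne ht.2 h1
      nlinarith)
    linarith

def Good (S : Set EE) (x y : EE) : Prop :=
  ∃ K ⊆ S, IsCompact K ∧ IsConnected K ∧ HD K ∧ x ∈ K ∧ y ∈ K

lemma arc_good {x y : EE} (hx : x ∈ L1) (hy : y ∈ io '' L1) (hy' : y ∉ L1) :
    Good (L1 ∪ io '' L1) x y := by
  obtain ⟨y, hy, rfl⟩ := hy
  obtain ⟨c, hc, t, ht, rfl⟩ := mem_L1.1 hy
  have h0 : t ≠ 0 := fun h => hy' (h ▸ io_zero hc)
  have h1 : t ≠ 1 := fun h => hy' (h ▸ io_one hc)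
  let γ : ℝ → EE := fun s => io (F c (t * Real.exp (-s)), 0)
  have hγ : Continuous γ :=
    io_cont.comp (((F_cont' c).comp (by fun_prop)).prodMk continuous_const)
  have hmem : ∀ s ∈ Ici (0 : ℝ), t * Real.exp (-s) ∈ Icc (-1 : ℝ) 1 ∧ t * Real.exp (-s) ≠ 1 := by
    intro s hs
    have e1 : Real.exp (-s) ≤ 1 := Real.exp_le_one_iff.2 (by simpa using hs)
    have e2 := Real.exp_pos (-s)
    have e3 := lt_of_le_of_ne ht.2 h1
    have e4 : t * Real.exp (-s) < 1 := by nlinarith [ht.1]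
    exact ⟨⟨by nlinarith [ht.1], e4.le⟩, e4.ne⟩
  have htend : Tendsto γ atTop (𝓝ˢ L1) := by
    refine Tendsto.mono_right ?_ (nhds_le_nhdsSet (io_zero hc))
    refine (io_cont.comp ((F_cont' c).prodMk continuous_const)).continuousAt.tendsto.comp ?_
    simpa using Real.tendsto_exp_neg_atTop_nhds_zero.const_mul t
  refine ⟨L1 ∪ γ '' Ici 0, ?_, tail_compact L1_compact hγ htend 0,
    tail_conn L1_compact L1_conn hγ htend 0, attach L1_compact L1_HD hγ htend 0 ?_ ?_,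
    Or.inl hx, Or.inr ⟨0, by simp, by simp [γ]⟩⟩
  · refine union_subset_union_right _ ?_
    rintro _ ⟨s, hs, rfl⟩
    exact ⟨_, mem_L1.2 ⟨c, hc, _, (hmem s hs).1, rfl⟩, rfl⟩
  · intro s hs r hr h
    have := (F_inj hc hc (hmem s hs).1 (hmem r hr).1
      (congrArg Prod.fst (io_emb.injective h))).1
    have h2 := Real.exp_injective (mul_left_cancel₀ h0 this)
    linarith
  · intro s hs
    exact io_not hc (hmem s hs).1 (mul_ne_zero h0 (Real.exp_pos _).ne') (hmem s hs).2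

end Pool.Agent.H.MP_ea0cba_gt
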