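import Pool.Agent.H.MP_ea0cba_gt.Line

open Set Topology Filter Complex
open scoped Real

namespace Pool.Agent.H.MP_ea0cba_gt

def ff (x : EE) : EE := ((x.1.1 ^ 2, x.1.2), x.2)

lemma ff_cont : Continuous ff := by unfold ff; fun_prop
lemma ff_io (x : EE) : ff (io x) = ff x := by simp [ff, io]
lemma ff_eq {x y : EE} (h : ff x = ff y) : x = y ∨ x = io y := by
  have h1 : x.1.1 ^ 2 = y.1.1 ^ 2 := congrArg (fun z : EE => z.1.1) h
  have h2 : (ff x).1.2 = (ff y).1.2 := by rw [h]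
  have h3 : (ff x).2 = (ff y).2 := by rw [h]
  rcases sq_eq_sq_iff_eq_or_eq_neg.1 h1 with h4 | h4
  · exact Or.inl (Prod.ext (Prod.ext h4 h2) h3)
  · exact Or.inr (Prod.ext (Prod.ext h4 h2) h3)

def YS : Set EE := ff '' XS

def fXY (x : XS) : YS := ⟨ff x.1, x.1, x.2, rfl⟩

instance : CompactSpace XS := isCompact_iff_compactSpace.1 XS_compact

lemma fXY_cont : Continuous fXY := (ff_cont.comp continuous_subtype_val).subtype_mk _

lemma fXY_surj : Function.Surjective fXY := by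
  rintro ⟨_, x, hx, rfl⟩
  exact ⟨⟨x, hx⟩, rfl⟩

lemma fXY_open : IsOpenMap fXY := by
  intro U hU
  have hq : IsQuotientMap fXY := fXY_cont.isClosedMap.isQuotientMap fXY_cont fXY_surj
  rw [← hq.isOpen_preimage]
  let j : XS → XS := fun x => ⟨io x.1, io_XS x.2⟩
  have hj : Continuous j := (io_cont.comp continuous_subtype_val).subtype_mk _
  have : fXY ⁻¹' (fXY '' U) = U ∪ j ⁻¹' U := by
    ext x
    constructor
    · rintro ⟨y, hy, h⟩
      rcases ff_eq (congrArg Subtype.val h) with h1 | h1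
      · exact Or.inl (Subtype.ext h1 ▸ hy)
      · right
        have : j x = y := Subtype.ext h1.symm
        show j x ∈ U
        rwa [this]
    · rintro (h | h)
      · exact ⟨x, h, rfl⟩
      · exact ⟨j x, h, Subtype.ext (ff_io x.1)⟩
  rw [this]
  exact hU.union (hU.preimage hj)

lemma fXY_loc : IsLocalHomeomorph fXY := by
  rw [isLocalHomeomorph_iff_isOpenEmbedding_restrict]
  intro x
  let U : Set XS := {y | 0 < (y.1.1.1 * (starRingEnd ℂ) x.1.1.1).re}
  have hU : IsOpen U := isOpen_lt continuous_const (by fun_prop)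
  refine ⟨U, hU.mem_nhds ?_, ?_⟩
  · show 0 < (x.1.1.1 * (starRingEnd ℂ) x.1.1.1).re
    rw [Complex.mul_conj, ofReal_re]
    exact normSq_pos.2 (XS_w x.2)
  · refine IsOpenEmbedding.of_continuous_injective_isOpenMap
      (fXY_cont.comp continuous_subtype_val) ?_ (fXY_open.comp hU.isOpenMap_subtype_val)
    intro y z h
    rcases ff_eq (congrArg Subtype.val h) with h1 | h1
    · exact Subtype.ext (Subtype.ext h1)
    · exfalso
      have h2 : 0 < (y.1.1.1.1 * (starRingEnd ℂ) x.1.1.1).re := y.2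
      have h3 : 0 < (z.1.1.1.1 * (starRingEnd ℂ) x.1.1.1).re := z.2
      have h4 : y.1.1.1.1 = -z.1.1.1.1 := congrArg (fun w : EE => w.1.1) h1
      rw [h4, neg_mul, neg_re] at h2
      linarith

lemma X_good (x y : XS) : ∃ K : Set XS, IsCompact K ∧ IsConnected K ∧ HD K ∧ x ∈ K ∧ y ∈ K := by
  obtain ⟨K, h1, h2, h3, h4, h5, h6⟩ := good_all x.2 y.2
  have he : IsEmbedding (Subtype.val : XS → EE) := IsEmbedding.subtypeVal
  have hK : Subtype.val '' (Subtype.val ⁻¹' K : Set XS) = K :=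
    image_preimage_eq_of_subset (by simpa using h1)
  refine ⟨Subtype.val ⁻¹' K, by rwa [he.isInducing.isCompact_iff, hK], ⟨⟨x, h5⟩, ?_⟩,
    h4.preimage he, h5, h6⟩
  rw [← he.isInducing.isPreconnected_image, hK]
  exact h3.2

instance : ConnectedSpace XS := by
  have h0 : XS.Nonempty := ⟨ell 0, Or.inl (Or.inr (Or.inl ⟨0, rfl⟩))⟩
  refine isConnected_iff_connectedSpace.1 ⟨h0, isPreconnected_of_forall_pair fun x hx y hy => ?_⟩
  obtain ⟨K, h1, -, h3, -, h5, h6⟩ := good_all hx hy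
  exact ⟨K, h1, h5, h6, h3.2⟩

lemma half {K : Set EE} (hK : K ⊆ YS) (hc : IsPreconnected K) (h1 : ff (ell 0) ∈ K)
    (h2 : (((1, 0), 0) : EE) ∈ K) : (∀ s > 0, ff (ell s) ∈ K) ∨ ∀ s < 0, ff (ell s) ∈ K := by
  by_contra h
  push Not at h
  obtain ⟨⟨a, ha, ha'⟩, b, hb, hb'⟩ := h
  let ψ : EE → ℝ := fun x => 1 - (a + b) * x.2.im + (a * b - 1) * x.2.re
  have hψ : Continuous ψ := by unfold ψ; fun_prop
  have e : ∀ s, ψ (ff (ell s)) = (s - a) * (s - b) / (1 + s ^ 2) := by
    intro s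
    show 1 - (a + b) * (eta s).im + (a * b - 1) * (eta s).re = _
    rw [eta_re, eta_im]
    field_simp
    ring
  obtain ⟨z, hz, hz0⟩ := hc.intermediate_value h1 h2 hψ.continuousOn (show (0 : ℝ) ∈ _ from ⟨by
    rw [e]
    have := mul_neg_of_pos_of_neg ha hb
    simp only [zero_sub, neg_mul_neg]
    exact div_nonpos_of_nonpos_of_nonneg this.le (by positivity), by simp [ψ]⟩)
  obtain ⟨x, hx, rfl⟩ := hK hz
  have key : ∀ s, ff (ell s) ∈ K → ψ (ff (ell s)) = 0 → False := by
    intro s hs h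
    rw [e, div_eq_zero_iff] at h
    rcases h with h | h
    · rcases mul_eq_zero.1 h with h | h
      · exact ha' (sub_eq_zero.1 h ▸ hs)
      · exact hb' (sub_eq_zero.1 h ▸ hs)
    · exact absurd h (by positivity)
  rcases XS_eta hx with h | ⟨s, rfl | rfl⟩
  · have : (ff x).2 = 0 := h
    simp [ψ, this] at hz0
  · exact key s hz hz0
  · rw [ff_io] at hz hz0
    exact key s hz hz0

def sig (z : ℕ → ℂ) : EE := ((z 0, z), 0)
lemma sig_cont : Continuous sig := by unfold sig; fun_prop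
lemma sig_emb : IsEmbedding sig :=
  IsEmbedding.of_leftInverse (f := fun x : EE => x.1.2) (fun _ => rfl) (by fun_prop) sig_cont

lemma sol_sub {K : Set EE} (hK : K ⊆ YS) (hcl : IsClosed K) (hc : IsPreconnected K)
    (h1 : ff (ell 0) ∈ K) (h2 : (((1, 0), 0) : EE) ∈ K) : Sol ⊆ sig ⁻¹' K := by
  intro z hz
  obtain ⟨c, hc', t, ht, rfl⟩ := sol_decomp hz
  have ht' : t ∈ Icc (-1 : ℝ) 1 := ⟨by linarith [ht.1], ht.2⟩
  have e : sig (c * phi t) = ff (F c t, 0) := by
    refine Prod.ext (Prod.ext ?_ ?_) rfl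
    · simp only [sig, ff, F, max_eq_left ht.1, Pi.mul_apply, hc'.2, one_mul, phi, sq, ← ex_add]
      congr 1
      ring
    · funext n
      simp [sig, ff, F, max_eq_left ht.1, max_eq_right (neg_nonpos.2 ht.1)]
  show sig (c * phi t) ∈ K
  rw [e]
  rcases half hK hc h1 h2 with h | h
  · refine hcl.closure_subset (map_mem_closure ff_cont (dense_aux hc' ht' 1 (Or.inl rfl)) ?_)
    rintro _ ⟨s, hs, rfl⟩
    have hs' : (1 : ℝ) ≤ s := hs
    simp only [one_mul]
    rw [← ell_pos hs]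
    exact h s (by linarith)
  · refine hcl.closure_subset (map_mem_closure ff_cont (dense_aux hc' ht' (-1) (Or.inr rfl)) ?_)
    rintro _ ⟨s, hs, rfl⟩
    have hs' : (1 : ℝ) ≤ s := hs
    simp only [neg_one_mul]
    rw [← ell2_pos hs, ell2, ff_io]
    exact h (-s) (by linarith)

lemma HD.image {X Y : Type} [TopologicalSpace X] [TopologicalSpace Y] {e : X → Y}
    (he : IsEmbedding e) {K : Set X} (h : HD K) : HD (e '' K) := by
  intro M hM hcM hcon hnt
  have hM' : e '' (e ⁻¹' M) = M := image_preimage_eq_of_subset (hM.trans (image_subset_range _ _))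
  obtain ⟨A, B, h1, h2, h3, h4, h5, h6, h7, h8, h9⟩ := h (e ⁻¹' M)
    ((preimage_mono hM).trans (preimage_image_eq _ he.injective).subset)
    (by rwa [he.isInducing.isCompact_iff, hM'])
    ⟨by have := hcon.1; rw [← hM'] at this; exact this.of_image,
      by rw [← he.isInducing.isPreconnected_image, hM']; exact hcon.2⟩
    (by rw [← hM'] at hnt; exact nontrivial_of_image _ _ hnt)
  refine ⟨e '' A, e '' B, hM' ▸ image_mono h1, hM' ▸ image_mono h2,
    fun h => h3 (by rw [← h, preimage_image_eq _ he.injective]),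
    fun h => h4 (by rw [← h, preimage_image_eq _ he.injective]), h5.image he.continuous,
    h6.image _ he.continuous.continuousOn, h7.image he.continuous,
    h8.image _ he.continuous.continuousOn, by rw [← image_union, h9, hM']⟩

theorem final :
    ¬ (∀ (X Y : Type) [MetricSpace X] [MetricSpace Y] [CompactSpace X] [ConnectedSpace X]
      (f : X → Y), IsLocalHomeomorph f → Function.Surjective f →
      (∀ x y : X, ∃ K : Set X, IsCompact K ∧ IsConnected K ∧ x ∈ K ∧ y ∈ K ∧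
        (∀ L : Set X, L ⊆ K → IsCompact L → IsConnected L → x ∈ L → y ∈ L → L = K) ∧
        (∀ M : Set X, M ⊆ K → IsCompact M → IsConnected M → M.Nontrivial →
          ∃ A B : Set X, A ⊆ M ∧ B ⊆ M ∧ A ≠ M ∧ B ≠ M ∧ IsCompact A ∧ IsConnected A ∧
            IsCompact B ∧ IsConnected B ∧ A ∪ B = M)) →
      (∀ x y : Y, ∃ K : Set Y, IsCompact K ∧ IsConnected K ∧ x ∈ K ∧ y ∈ K ∧
        (∀ L : Set Y, L ⊆ K → IsCompact L → IsConnected L → x ∈ L → y ∈ L → L = K) ∧
        (∀ M : Set Y, M ⊆ K → IsCompact M → IsConnected M → M.Nontrivial →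
          ∃ A B : Set Y, A ⊆ M ∧ B ⊆ M ∧ A ≠ M ∧ B ≠ M ∧ IsCompact A ∧ IsConnected A ∧
            IsCompact B ∧ IsConnected B ∧ A ∪ B = M))) := by
  intro H
  have hv : (((1, 0), 0) : EE) ∈ XS :=
    Or.inl (Or.inl (mem_L1.2 ⟨1, cs_one, -1, by simp, by rw [F_neg_one]⟩))
  have hv' : ff ((1, 0), 0) = ((1, 0), 0) := by simp [ff]
  obtain ⟨K, h1, h2, h3, h4, -, h6⟩ := @H XS YS (TopologicalSpace.metrizableSpaceMetric XS)
    (TopologicalSpace.metrizableSpaceMetric YS) inferInstance inferInstance fXY fXY_loc fXY_surj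
    (fun x y => by
      obtain ⟨K, h1, h2, h3, h4, h5⟩ := X_good x y
      obtain ⟨L, h6, h7, h8, h9, h10, h11⟩ := exists_irred h1 h2 h4 h5
      exact ⟨L, h7, h8, h9, h10, h11, h3.mono h6⟩)
    (fXY ⟨ell 0, Or.inl (Or.inr (Or.inl ⟨0, rfl⟩))⟩) (fXY ⟨_, hv⟩)
  have h7 : HD K := h6
  have h8 : HD (Subtype.val '' K) := h7.image IsEmbedding.subtypeVal
  have h9 := sol_sub (K := Subtype.val '' K) (Subtype.coe_image_subset _ _)
    (h1.image continuous_subtype_val).isClosed
    (h2.2.image _ continuous_subtype_val.continuousOn) ⟨_, h3, rfl⟩ ⟨_, h4, hv'⟩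
  refine sol_indec (h8.preimage sig_emb Sol h9 sol_compact sol_conn ?_)
  refine ⟨1, cs_one.1, phi (1 / 2), subset_closure ⟨_, rfl⟩, fun h => ?_⟩
  have h10 := congrFun h 0
  have h11 : phi (1 / 2) 0 = -1 := by
    rw [← ex_pi]
    simp only [phi]
    congr 1
    ring
  rw [h11] at h10
  norm_num at h10

end Pool.Agent.H.MP_ea0cba_gt
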