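import Mathlib

open Set Topology Filter

namespace Pool.Agent.H.MP_ea0cba_gt

variable {E : Type} [TopologicalSpace E]

def Dec (M : Set E) : Prop :=
  ∃ A B : Set E, A ⊆ M ∧ B ⊆ M ∧ A ≠ M ∧ B ≠ M ∧ IsCompact A ∧ IsConnected A ∧
    IsCompact B ∧ IsConnected B ∧ A ∪ B = M

def HD (K : Set E) : Prop :=
  ∀ M : Set E, M ⊆ K → IsCompact M → IsConnected M → M.Nontrivial → Dec M

lemma HD.mono {K L : Set E} (h : HD K) (hL : L ⊆ K) : HD L :=
  fun M hM => h M (hM.trans hL)

lemma pre_of_cut {M A B : Set E} {z : E} (hM : IsPreconnected M) (hA : IsClosed A)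
    (hB : IsClosed B) (hs : M ⊆ A ∪ B) (hz : M ∩ A ∩ B ⊆ {z}) : IsPreconnected (M ∩ A) := by
  rw [isPreconnected_iff_subset_of_disjoint_closed] at hM ⊢
  have key : ∀ u v : Set E, IsClosed u → IsClosed v → M ∩ A ⊆ u ∪ v → M ∩ A ∩ (u ∩ v) = ∅ →
      z ∉ M ∩ A ∩ v → M ∩ A ⊆ u ∨ M ∩ A ⊆ v := by
    intro u v hu hv h1 h2 h3
    rcases hM ((A ∩ u) ∪ B) (A ∩ v) ((hA.inter hu).union hB) (hA.inter hv) (by
      intro x hx
      rcases hs hx with h | h
      · rcases h1 ⟨hx, h⟩ with h' | h'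
        · exact Or.inl (Or.inl ⟨h, h'⟩)
        · exact Or.inr ⟨h, h'⟩
      · exact Or.inl (Or.inr h)) (by
      rw [eq_empty_iff_forall_notMem]
      rintro x ⟨hx, h4 | h4, h5⟩
      · exact (eq_empty_iff_forall_notMem.1 h2) x ⟨⟨hx, h5.1⟩, h4.2, h5.2⟩
      · have : x = z := hz ⟨⟨hx, h5.1⟩, h4⟩
        exact h3 (this ▸ ⟨⟨hx, h5.1⟩, h5.2⟩)) with h | h
    · left
      intro x hx
      rcases h hx.1 with h' | h'
      · exact h'.2
      · have : x = z := hz ⟨hx, h'⟩
        rcases h1 hx with h'' | h''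
        · exact h''
        · exact absurd (this ▸ ⟨hx, h''⟩) h3
    · exact Or.inr fun x hx => (h hx.1).2
  intro u v hu hv h1 h2
  by_cases h3 : z ∈ M ∩ A ∩ v
  · have h4 : z ∉ M ∩ A ∩ u := fun h => (eq_empty_iff_forall_notMem.1 h2) z ⟨h.1, h.2, h3.2⟩
    exact (key v u hv hu (by rwa [union_comm]) (by rwa [inter_comm v]) h4).symm
  · exact key u v hu hv h1 h2 h3

lemma cut {M A B : Set E} {z : E} (hc : IsCompact M) (hM : IsConnected M) (hA : IsClosed A)
    (hB : IsClosed B) (hs : M ⊆ A ∪ B) (hz : M ∩ A ∩ B ⊆ {z}) (h1 : ¬ M ⊆ A) (h2 : ¬ M ⊆ B) :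
    Dec M := by
  obtain ⟨x, hx, hxA⟩ := not_subset.1 h1
  obtain ⟨y, hy, hyB⟩ := not_subset.1 h2
  refine ⟨M ∩ A, M ∩ B, inter_subset_left, inter_subset_left, fun h => h1 (inter_eq_left.1 h),
    fun h => h2 (inter_eq_left.1 h), hc.inter_right hA, ⟨⟨y, hy, (hs hy).resolve_right hyB⟩,
      pre_of_cut hM.2 hA hB hs hz⟩, hc.inter_right hB, ⟨⟨x, hx, (hs hx).resolve_left hxA⟩,
      pre_of_cut (z := z) hM.2 hB hA (by rwa [union_comm]) (by rwa [inter_right_comm])⟩, ?_⟩
  rw [← inter_union_distrib_left, inter_eq_left.2 hs]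

lemma arcHD [T2Space E] {γ : ℝ → E} {a b : ℝ} (hc : Continuous γ) (hi : InjOn γ (Icc a b)) :
    HD (γ '' Icc a b) := by
  intro M hM hcM hcon hnt
  have key : ∀ s t, s ∈ Icc a b → t ∈ Icc a b → s < t → γ s ∈ M → γ t ∈ M → Dec M := by
    intro s t hs ht hst h1 h2
    have hm : (s + t) / 2 ∈ Icc a b := ⟨by linarith [hs.1, ht.1], by linarith [hs.2, ht.2]⟩
    refine cut (A := γ '' Icc a ((s + t) / 2)) (B := γ '' Icc ((s + t) / 2) b)
      (z := γ ((s + t) / 2)) hcM hcon (isCompact_Icc.image hc).isClosed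
      (isCompact_Icc.image hc).isClosed ?_ ?_ ?_ ?_
    · intro x hx
      obtain ⟨r, hr, rfl⟩ := hM hx
      rcases le_total r ((s + t) / 2) with h | h
      · exact Or.inl ⟨r, ⟨hr.1, h⟩, rfl⟩
      · exact Or.inr ⟨r, ⟨h, hr.2⟩, rfl⟩
    · rintro x ⟨⟨_, r, hr, rfl⟩, r', hr', h⟩
      have := hi ⟨hm.1.trans hr'.1, hr'.2⟩ ⟨hr.1, hr.2.trans hm.2⟩ h
      have h3 : r = (s + t) / 2 := le_antisymm hr.2 (this ▸ hr'.1)
      rw [h3]
      rfl
    · intro h
      obtain ⟨r, hr, h3⟩ := h h2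
      have := hi ⟨hr.1, hr.2.trans hm.2⟩ ht h3
      linarith [hr.2]
    · intro h
      obtain ⟨r, hr, h3⟩ := h h1
      have := hi ⟨hm.1.trans hr.1, hr.2⟩ hs h3
      linarith [hr.1]
  obtain ⟨x, hx, y, hy, hxy⟩ := hnt
  obtain ⟨s, hs, rfl⟩ := hM hx
  obtain ⟨t, ht, rfl⟩ := hM hy
  rcases lt_trichotomy s t with h | h | h
  · exact key s t hs ht h hx hy
  · exact absurd (congrArg γ h) hxy
  · exact key t s ht hs h hy hx

lemma tail_compact {K : Set E} (hK : IsCompact K) {γ : ℝ → E} (hc : Continuous γ)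
    (ht : Tendsto γ atTop (𝓝ˢ K)) (s : ℝ) : IsCompact (K ∪ γ '' Ici s) := by
  classical
  refine isCompact_of_finite_subcover fun {ι} U hU hcov => ?_
  obtain ⟨t1, h1⟩ := hK.elim_finite_subcover U hU (subset_union_left.trans hcov)
  have hopen : IsOpen (⋃ i ∈ t1, U i) := isOpen_biUnion fun i _ => hU i
  obtain ⟨T, hT⟩ := eventually_atTop.1 (ht (hopen.mem_nhdsSet.2 h1))
  obtain ⟨t2, h2⟩ := ((isCompact_Icc (a := s) (b := T)).image hc).elim_finite_subcover U hU
    ((image_mono Icc_subset_Ici_self).trans (subset_union_right.trans hcov))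
  refine ⟨t1 ∪ t2, ?_⟩
  rw [Finset.set_biUnion_union]
  rintro x (hx | ⟨r, hr, rfl⟩)
  · exact Or.inl (h1 hx)
  · rcases le_total r T with h | h
    · exact Or.inr (h2 ⟨r, ⟨hr, h⟩, rfl⟩)
    · exact Or.inl (hT r h)

lemma tail_conn {K : Set E} (hK : IsCompact K) (hcon : IsConnected K) {γ : ℝ → E}
    (hc : Continuous γ) (ht : Tendsto γ atTop (𝓝ˢ K)) (s : ℝ) : IsConnected (K ∪ γ '' Ici s) := by
  have h1 : ∃ x ∈ K, x ∈ closure (γ '' Ici s) := by
    by_contra h
    push Not at h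
    have : (closure (γ '' Ici s))ᶜ ∈ 𝓝ˢ K := isClosed_closure.isOpen_compl.mem_nhdsSet.2 h
    obtain ⟨T, hT⟩ := eventually_atTop.1 (ht this)
    exact hT (max T s) (le_max_left _ _) (subset_closure ⟨_, le_max_right T s, rfl⟩)
  obtain ⟨x, hx, hx'⟩ := h1
  have h2 : IsConnected (γ '' Ici s) := isConnected_Ici.image _ hc.continuousOn
  have h3 : IsConnected (insert x (γ '' Ici s)) :=
    h2.subset_closure (subset_insert _ _) (insert_subset hx' subset_closure)
  have h4 := hcon.union ⟨x, hx, mem_insert _ _⟩ h3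
  rwa [union_insert, insert_eq_of_mem (mem_union_left _ hx)] at h4

lemma attach [T2Space E] {K : Set E} (hK : IsCompact K) (hd : HD K) {γ : ℝ → E}
    (hc : Continuous γ) (ht : Tendsto γ atTop (𝓝ˢ K)) (a : ℝ) (hi : InjOn γ (Ici a))
    (hdis : ∀ s ∈ Ici a, γ s ∉ K) : HD (K ∪ γ '' Ici a) := by
  intro M hM hcM hcon hnt
  have key : ∀ s r, a ≤ s → s < r → γ s ∈ M → (¬ M ⊆ γ '' Icc a r) → Dec M := by
    intro s r hs hsr h1 h2
    have har : a ≤ r := hs.trans hsr.le
    refine cut (A := γ '' Icc a r) (B := K ∪ γ '' Ici r) (z := γ r) hcM hcon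
      (isCompact_Icc.image hc).isClosed (tail_compact hK hc ht r).isClosed ?_ ?_ h2 ?_
    · intro x hx
      rcases hM hx with h | ⟨q, hq, rfl⟩
      · exact Or.inr (Or.inl h)
      · rcases le_total q r with h | h
        · exact Or.inl ⟨q, ⟨hq, h⟩, rfl⟩
        · exact Or.inr (Or.inr ⟨q, h, rfl⟩)
    · rintro x ⟨⟨_, q, hq, rfl⟩, h | ⟨q', hq', h⟩⟩
      · exact absurd h (hdis q hq.1)
      · have := hi (har.trans hq') hq.1 h
        have h3 : q = r := le_antisymm hq.2 (this ▸ hq')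
        rw [h3]
        rfl
    · intro h
      rcases h h1 with h3 | ⟨q, hq, h3⟩
      · exact hdis s hs h3
      · have := hi (har.trans hq) hs h3
        have h4 : r ≤ q := hq
        linarith
  by_cases hMK : M ⊆ K
  · exact hd M hMK hcM hcon hnt
  obtain ⟨x, hx, hxK⟩ := not_subset.1 hMK
  obtain ⟨s, hs, rfl⟩ := (hM hx).resolve_left hxK
  obtain ⟨y, hy, hyx⟩ := hnt.exists_ne (γ s)
  rcases hM hy with h | ⟨t, ht', rfl⟩
  · refine key s (s + 1) hs (by linarith) hx fun h2 => ?_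
    obtain ⟨q, hq, rfl⟩ := h2 hy
    exact hdis q hq.1 h
  · rcases lt_trichotomy s t with h | h | h
    · refine key s ((s + t) / 2) hs (by linarith) hx fun h2 => ?_
      obtain ⟨q, hq, h3⟩ := h2 hy
      have := hi hq.1 ht' h3
      linarith [hq.2]
    · exact absurd (congrArg γ h).symm hyx
    · refine key t ((s + t) / 2) ht' (by linarith) hy fun h2 => ?_
      obtain ⟨q, hq, h3⟩ := h2 hx
      have := hi hq.1 hs h3
      linarith [hq.2]

lemma HD.preimage {X : Type} [TopologicalSpace X] {e : X → E} (he : IsEmbedding e) {K : Set E}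
    (h : HD K) : HD (e ⁻¹' K) := by
  intro M hM hcM hcon hnt
  obtain ⟨A, B, h1, h2, h3, h4, h5, h6, h7, h8, h9⟩ := h (e '' M) (image_subset_iff.2 hM)
    (hcM.image he.continuous) (hcon.image _ he.continuous.continuousOn) (hnt.image he.injective)
  have hA : e '' (e ⁻¹' A) = A := image_preimage_eq_of_subset (h1.trans (image_subset_range _ _))
  have hB : e '' (e ⁻¹' B) = B := image_preimage_eq_of_subset (h2.trans (image_subset_range _ _))
  have hM' : e ⁻¹' (e '' M) = M := preimage_image_eq _ he.injective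
  refine ⟨e ⁻¹' A, e ⁻¹' B, hM' ▸ preimage_mono h1, hM' ▸ preimage_mono h2,
    fun h => h3 (by rw [← hA, h]), fun h => h4 (by rw [← hB, h]), ?_, ?_, ?_, ?_, ?_⟩
  · rwa [he.isInducing.isCompact_iff, hA]
  · exact ⟨by have := h6.1; rw [← hA] at this; exact this.of_image,
      by rw [← he.isInducing.isPreconnected_image, hA]; exact h6.2⟩
  · rwa [he.isInducing.isCompact_iff, hB]
  · exact ⟨by have := h8.1; rw [← hB] at this; exact this.of_image,
      by rw [← he.isInducing.isPreconnected_image, hB]; exact h8.2⟩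
  · rw [← preimage_union, h9, hM']

lemma exists_irred [T2Space E] [CompactSpace E] {K : Set E} (hK : IsCompact K)
    (hcon : IsConnected K) {x y : E} (hx : x ∈ K) (hy : y ∈ K) :
    ∃ L ⊆ K, IsCompact L ∧ IsConnected L ∧ x ∈ L ∧ y ∈ L ∧
      ∀ L' : Set E, L' ⊆ L → IsCompact L' → IsConnected L' → x ∈ L' → y ∈ L' → L' = L := by
  obtain ⟨L, hLK, hL⟩ := zorn_superset_nonempty
    {L : Set E | IsCompact L ∧ IsConnected L ∧ x ∈ L ∧ y ∈ L} (by
      intro T hT hch hne
      have hcl : IsClosed (⋂₀ T) := isClosed_sInter fun A hA => (hT hA).1.isClosed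
      have hxT : x ∈ ⋂₀ T := fun A hA => (hT hA).2.2.1
      refine ⟨⋂₀ T, ⟨hcl.isCompact, ⟨⟨x, hxT⟩, ?_⟩, hxT, fun A hA => (hT hA).2.2.2⟩,
        fun A hA => sInter_subset_of_mem hA⟩
      rw [isPreconnected_iff_subset_of_fully_disjoint_closed hcl]
      intro u v hu hv h1 h2
      obtain ⟨U, V, hU, hV, huU, hvV, hUV⟩ := normal_separation hu hv h2
      have := hne.to_subtype
      obtain ⟨A, hA⟩ := ((hU.union hV).isClosed_compl.isCompact).elim_directed_family_closed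
        (fun A : T => A.1) (fun A => (hT A.2).1.isClosed) (by
          rw [← sInter_eq_iInter, eq_empty_iff_forall_notMem]
          rintro z ⟨hz1, hz2⟩
          exact hz1 ((union_subset_union huU hvV) (h1 hz2))) (by
          intro A B
          rcases hch.total A.2 B.2 with h | h
          · exact ⟨A, subset_rfl, h⟩
          · exact ⟨B, h, subset_rfl⟩)
      have hAUV : A.1 ⊆ U ∪ V := by
        intro z hz
        by_contra h
        exact (eq_empty_iff_forall_notMem.1 hA) z ⟨h, hz⟩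
      rcases (hT A.2).2.1.2.subset_or_subset hU hV hUV hAUV with h | h
      · left
        intro z hz
        refine (h1 hz).resolve_right fun h' => ?_
        exact disjoint_left.1 hUV (h (hz A.1 A.2)) (hvV h')
      · right
        intro z hz
        refine (h1 hz).resolve_left fun h' => ?_
        exact disjoint_left.1 hUV (huU h') (h (hz A.1 A.2))) K ⟨hK, hcon, hx, hy⟩
  exact ⟨L, hLK, hL.prop.1, hL.prop.2.1, hL.prop.2.2.1, hL.prop.2.2.2,
    fun L' h1 h2 h3 h4 h5 => subset_antisymm h1 (hL.le_of_le ⟨h2, h3, h4, h5⟩ h1)⟩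

end Pool.Agent.H.MP_ea0cba_gt
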