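import Pool.Agent.H.MP_ea0cba_gt.Fan

open Set Topology Filter Complex
open scoped Real

namespace Pool.Agent.H.MP_ea0cba_gt

lemma cont_floor {r : ℝ → ℂ} (hr : Continuous r) {g : ℕ → ℂ} (hg : ∀ k, ‖g k‖ ≤ 1)
    (h0 : ∀ s : ℝ, ∀ k : ℕ, |s| = k → r s = 0) : Continuous fun s => r s * g ⌊|s|⌋₊ := by
  refine continuous_iff_continuousAt.2 fun s => ?_
  by_cases h : |s| = (⌊|s|⌋₊ : ℝ)
  · have h1 := h0 s _ h
    rw [ContinuousAt, h1, zero_mul]
    refine squeeze_zero_norm (a := fun x => ‖r x‖) (fun x => ?_) ?_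
    · rw [norm_mul]
      exact mul_le_of_le_one_right (norm_nonneg _) (hg _)
    · have := hr.norm.tendsto s
      rwa [h1, norm_zero] at this
  · have h1 : (⌊|s|⌋₊ : ℝ) < |s| := lt_of_le_of_ne (Nat.floor_le (abs_nonneg s)) (Ne.symm h)
    have h2 : |s| < ⌊|s|⌋₊ + 1 := Nat.lt_floor_add_one _
    have h3 : ∀ᶠ x in 𝓝 s, |x| ∈ Ioo (⌊|s|⌋₊ : ℝ) (⌊|s|⌋₊ + 1) :=
      continuous_abs.continuousAt.eventually (Ioo_mem_nhds h1 h2)
    refine ContinuousAt.congr (f := fun x => r x * g ⌊|s|⌋₊) (by fun_prop) ?_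
    filter_upwards [h3] with x hx
    rw [(Nat.floor_eq_iff (abs_nonneg x)).2 ⟨hx.1.le, hx.2⟩]

noncomputable def dd : ℕ → ℕ → ℂ := exists_seq.choose
lemma dd_mem (k : ℕ) : dd k ∈ Cs := exists_seq.choose_spec.1 k
lemma dd_dense : ∀ c ∈ Cs, ∀ U ∈ 𝓝 c, ∀ N : ℕ, ∃ k ≥ N, dd k ∈ U := exists_seq.choose_spec.2

noncomputable def tt (s : ℝ) : ℝ := -Real.cos (2 * π * s)
lemma tt_mem (s : ℝ) : tt s ∈ Icc (-1 : ℝ) 1 :=
  ⟨by unfold tt; linarith [Real.cos_le_one (2 * π * s)],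
    by unfold tt; linarith [Real.neg_one_le_cos (2 * π * s)]⟩
@[fun_prop] lemma tt_cont : Continuous tt := by unfold tt; fun_prop

noncomputable def GG (s : ℝ) : E0 := F (dd ⌊|s|⌋₊) (tt s)

lemma GG_mem (s : ℝ) : GG s ∈ L0 := mem_L0 (dd_mem _) (tt_mem s)

lemma GG_cont : Continuous GG := by
  unfold GG F
  refine Continuous.prodMk (by fun_prop) (continuous_pi fun n => ?_)
  have h1 : Continuous fun s : ℝ => phi (max (tt s) 0) n :=
    (continuous_apply n).comp (phi_cont.comp (by fun_prop))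
  have h2 := cont_floor (r := fun s => ((1 - max (-tt s) 0 : ℝ) : ℂ)) (by fun_prop)
    (g := fun k => dd k n) (fun k => (sol_norm (dd_mem k).1 n).le) (by
      intro s k hk
      have h3 : Real.cos (2 * π * s) = 1 := by
        rw [← Real.cos_abs, abs_mul, abs_of_pos (by positivity : 0 < 2 * π), hk, mul_comm]
        exact Real.cos_nat_mul_two_pi k
      simp [tt, h3])
  exact (h2.mul h1).congr fun s => mul_assoc _ _ _

noncomputable def rho (s : ℝ) : ℂ := ex (π * max 0 (min 1 ((1 - s) / 2)))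
@[fun_prop] lemma rho_cont : Continuous rho := by unfold rho; fun_prop
lemma rho_pos {s : ℝ} (hs : 1 ≤ s) : rho s = 1 := by
  unfold rho
  rw [max_eq_left (min_le_of_right_le (by linarith))]
  simp
lemma rho_neg {s : ℝ} (hs : s ≤ -1) : rho s = -1 := by
  unfold rho
  rw [min_eq_left (by linarith), max_eq_right zero_le_one, mul_one, ex_pi]

noncomputable def eta (s : ℝ) : ℂ := (1 - s * I)⁻¹
lemma eta_den (s : ℝ) : (1 - s * I : ℂ) ≠ 0 := fun h => by simpa using congrArg Complex.re h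
lemma eta_ne (s : ℝ) : eta s ≠ 0 := inv_ne_zero (eta_den s)
lemma eta_cont : Continuous eta := Continuous.inv₀ (by fun_prop) eta_den
lemma eta_inj : Function.Injective eta := fun s t h => by
  simpa using congrArg Complex.im (inv_injective h)
lemma eta_re (s : ℝ) : (eta s).re = 1 / (1 + s ^ 2) := by
  simp [eta, Complex.inv_re, normSq_apply, sq]
lemma eta_im (s : ℝ) : (eta s).im = s / (1 + s ^ 2) := by
  simp [eta, Complex.inv_im, normSq_apply, sq]
lemma eta_tend {l : Filter ℝ} (h : Tendsto (fun s : ℝ => |s|) l atTop) : Tendsto eta l (𝓝 0) := by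
  refine Filter.tendsto_inv₀_cobounded.comp ?_
  rw [← tendsto_norm_atTop_iff_cobounded]
  refine tendsto_atTop_mono (fun s => ?_) h
  simpa using Complex.abs_im_le_norm (1 - s * I)

noncomputable def ell (s : ℝ) : EE := ((rho s * (GG s).1, (GG s).2), eta s)
noncomputable def ell2 (s : ℝ) : EE := io (ell (-s))

lemma ell_cont : Continuous ell :=
  ((rho_cont.mul (continuous_fst.comp GG_cont)).prodMk (continuous_snd.comp GG_cont)).prodMk
    eta_cont
lemma ell2_cont : Continuous ell2 := io_cont.comp (ell_cont.comp continuous_neg)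

lemma ell_pos {s : ℝ} (hs : 1 ≤ s) : ell s = (GG s, eta s) := by simp [ell, rho_pos hs]
lemma ell2_pos {s : ℝ} (hs : 1 ≤ s) : ell2 s = (GG (-s), eta (-s)) := by
  simp [ell2, ell, io, rho_neg (neg_le_neg hs)]

lemma tend_aux {γ : ℝ → EE} {g : ℝ → E0} {h : ℝ → ℂ} (h1 : ∀ s, 1 ≤ s → γ s = (g s, h s))
    (h2 : ∀ s, g s ∈ L0) (h3 : Tendsto h atTop (𝓝 0)) : Tendsto γ atTop (𝓝ˢ L1) := by
  rw [L1, L0_compact.nhdsSet_prod_eq isCompact_singleton, nhdsSet_singleton]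
  refine Tendsto.congr' (f₁ := fun s => (g s, h s)) ?_ (Tendsto.prodMk ?_ h3)
  · filter_upwards [eventually_ge_atTop 1] with s hs
    exact (h1 s hs).symm
  · exact Tendsto.mono_right (tendsto_principal.2 (Eventually.of_forall h2)) principal_le_nhdsSet

lemma ell_tend : Tendsto ell atTop (𝓝ˢ L1) :=
  tend_aux (fun _ => ell_pos) GG_mem (eta_tend tendsto_abs_atTop_atTop)
lemma ell2_tend : Tendsto ell2 atTop (𝓝ˢ L1) :=
  tend_aux (g := fun s => GG (-s)) (h := fun s => eta (-s)) (fun _ => ell2_pos) (fun _ => GG_mem _)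
    ((eta_tend tendsto_abs_atBot_atTop).comp tendsto_neg_atTop_atBot)

lemma ell_w (s : ℝ) : (ell s).1.1 ≠ 0 := mul_ne_zero (ex_ne _) (ex_ne _)

def KK (a : ℝ) : Set EE := (L1 ∪ ell '' Ici a) ∪ ell2 '' Ici a

lemma ell2_tend' (a : ℝ) : Tendsto ell2 atTop (𝓝ˢ (L1 ∪ ell '' Ici a)) :=
  ell2_tend.mono_right (nhdsSet_mono subset_union_left)

lemma KK_compact (a : ℝ) : IsCompact (KK a) :=
  tail_compact (tail_compact L1_compact ell_cont ell_tend a) ell2_cont (ell2_tend' a) a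

lemma KK_conn (a : ℝ) : IsConnected (KK a) :=
  tail_conn (tail_compact L1_compact ell_cont ell_tend a)
    (tail_conn L1_compact L1_conn ell_cont ell_tend a) ell2_cont (ell2_tend' a) a

lemma KK_HD (a : ℝ) : HD (KK a) := by
  refine attach (tail_compact L1_compact ell_cont ell_tend a)
    (attach L1_compact L1_HD ell_cont ell_tend a ?_ ?_) ell2_cont (ell2_tend' a) a ?_ ?_
  · exact fun s _ t _ h => eta_inj (congrArg Prod.snd h)
  · exact fun s _ h => eta_ne s h.2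
  · exact fun s _ t _ h => neg_injective (eta_inj (congrArg Prod.snd h))
  · rintro s _ (h | ⟨t, _, h⟩)
    · exact eta_ne (-s) h.2
    · have h1 : t = -s := eta_inj (congrArg Prod.snd h)
      subst h1
      have h2 : (ell (-s)).1.1 = -(ell (-s)).1.1 := congrArg (fun x : EE => x.1.1) h
      exact ell_w (-s) (by linear_combination h2 / 2)

def N1 : Set EE := L1 ∪ (range ell ∪ range ell2)
def XS : Set EE := N1 ∪ io '' L1

lemma io_ell (s : ℝ) : io (ell s) = ell2 (-s) := by simp [ell2]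
lemma io_ell2 (s : ℝ) : io (ell2 s) = ell (-s) := by simp [ell2, io_io]

lemma io_XS {x : EE} (hx : x ∈ XS) : io x ∈ XS := by
  rcases hx with (h | ⟨s, rfl⟩ | ⟨s, rfl⟩) | ⟨y, hy, rfl⟩
  · exact Or.inr ⟨x, h, rfl⟩
  · exact Or.inl (Or.inr (Or.inr ⟨_, (io_ell s).symm⟩))
  · exact Or.inl (Or.inr (Or.inl ⟨_, (io_ell2 s).symm⟩))
  · rw [io_io]
    exact Or.inl (Or.inl hy)

lemma KK_sub (a : ℝ) : KK a ⊆ XS := by
  rintro x ((h | ⟨s, _, rfl⟩) | ⟨s, _, rfl⟩)
  · exact Or.inl (Or.inl h)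
  · exact Or.inl (Or.inr (Or.inl ⟨s, rfl⟩))
  · exact Or.inl (Or.inr (Or.inr ⟨s, rfl⟩))

lemma mem_KK {x : EE} (hx : x ∈ N1) : ∃ a, ∀ b ≤ a, x ∈ KK b := by
  rcases hx with h | ⟨s, rfl⟩ | ⟨s, rfl⟩
  · exact ⟨0, fun b _ => Or.inl (Or.inl h)⟩
  · exact ⟨s, fun b hb => Or.inl (Or.inr ⟨s, hb, rfl⟩)⟩
  · exact ⟨s, fun b hb => Or.inr ⟨s, hb, rfl⟩⟩

lemma good1 {x y : EE} (hx : x ∈ N1) (hy : y ∈ N1) : Good XS x y := by
  obtain ⟨a, ha⟩ := mem_KK hx
  obtain ⟨b, hb⟩ := mem_KK hy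
  exact ⟨KK (min a b), KK_sub _, KK_compact _, KK_conn _, KK_HD _, ha _ (min_le_left _ _),
    hb _ (min_le_right _ _)⟩

lemma good_io {x y : EE} (h : Good XS (io x) (io y)) : Good XS x y := by
  obtain ⟨K, h1, h2, h3, h4, h5, h6⟩ := h
  refine ⟨io ⁻¹' K, fun z hz => io_io z ▸ io_XS (h1 hz), ?_, ?_, h4.preimage io_emb, h5, h6⟩
  · rw [← io_img]
    exact h2.image io_cont
  · rw [← io_img]
    exact h3.image _ io_cont.continuousOn

lemma good_all {x y : EE} (hx : x ∈ XS) (hy : y ∈ XS) : Good XS x y := by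
  have key : ∀ x y : EE, x ∈ N1 → y ∈ XS → y ∉ N1 → Good XS x y := by
    intro x y hx hy hy'
    have hy2 := hy.resolve_left hy'
    have hy3 : io y ∈ N1 := by
      obtain ⟨z, hz, rfl⟩ := hy2
      rw [io_io]
      exact Or.inl hz
    rcases hx with h | ⟨s, rfl⟩ | ⟨s, rfl⟩
    · obtain ⟨K, h1, h2⟩ := arc_good h hy2 fun h => hy' (Or.inl h)
      exact ⟨K, h1.trans (union_subset_union_left _ subset_union_left), h2⟩
    · exact good_io (good1 (Or.inr (Or.inr ⟨_, (io_ell s).symm⟩)) hy3)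
    · exact good_io (good1 (Or.inr (Or.inl ⟨_, (io_ell2 s).symm⟩)) hy3)
  by_cases h1 : x ∈ N1 <;> by_cases h2 : y ∈ N1
  · exact good1 h1 h2
  · exact key x y h1 hy h2
  · obtain ⟨K, h3, h4, h5, h6, h7, h8⟩ := key y x h2 hx h1
    exact ⟨K, h3, h4, h5, h6, h8, h7⟩
  · obtain ⟨z, hz, rfl⟩ := hx.resolve_left h1
    obtain ⟨w, hw, rfl⟩ := hy.resolve_left h2
    exact good_io (good1 (by rw [io_io]; exact Or.inl hz) (by rw [io_io]; exact Or.inl hw))

lemma XS_compact : IsCompact XS := by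
  have : XS = KK 0 ∪ io '' KK 0 := by
    apply subset_antisymm
    · rintro x ((h | ⟨s, rfl⟩ | ⟨s, rfl⟩) | ⟨y, hy, rfl⟩)
      · exact Or.inl (Or.inl (Or.inl h))
      · rcases le_total 0 s with h | h
        · exact Or.inl (Or.inl (Or.inr ⟨s, h, rfl⟩))
        · exact Or.inr ⟨ell2 (-s), Or.inr ⟨-s, neg_nonneg.2 h, rfl⟩, by rw [io_ell2, neg_neg]⟩
      · rcases le_total 0 s with h | h
        · exact Or.inl (Or.inr ⟨s, h, rfl⟩)
        · exact Or.inr ⟨ell (-s), Or.inl (Or.inr ⟨-s, neg_nonneg.2 h, rfl⟩), rfl⟩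
      · exact Or.inr ⟨y, Or.inl (Or.inl hy), rfl⟩
    · rintro x (h | ⟨y, hy, rfl⟩)
      · exact KK_sub 0 h
      · exact io_XS (KK_sub 0 hy)
  rw [this]
  exact (KK_compact 0).union ((KK_compact 0).image io_cont)

lemma XS_w {x : EE} (hx : x ∈ XS) : x.1.1 ≠ 0 := by
  have h1 : ∀ x ∈ L1, x.1.1 ≠ 0 := by
    intro x hx
    obtain ⟨c, _, t, _, rfl⟩ := mem_L1.1 hx
    exact ex_ne _
  rcases hx with (h | ⟨s, rfl⟩ | ⟨s, rfl⟩) | ⟨y, hy, rfl⟩
  · exact h1 x h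
  · exact ell_w s
  · exact neg_ne_zero.2 (ell_w _)
  · exact neg_ne_zero.2 (h1 y hy)

lemma XS_eta {x : EE} (hx : x ∈ XS) : x.2 = 0 ∨ ∃ s, x = ell s ∨ x = io (ell s) := by
  rcases hx with (h | ⟨s, rfl⟩ | ⟨s, rfl⟩) | ⟨y, hy, rfl⟩
  · exact Or.inl h.2
  · exact Or.inr ⟨s, Or.inl rfl⟩
  · exact Or.inr ⟨-s, Or.inr rfl⟩
  · exact Or.inl hy.2

lemma dense_aux {c : ℕ → ℂ} (hc : c ∈ Cs) {t : ℝ} (ht : t ∈ Icc (-1 : ℝ) 1) (ε : ℝ)
    (hε : ε = 1 ∨ ε = -1) :
    ((F c t, 0) : EE) ∈ closure ((fun s => (GG (ε * s), eta (ε * s))) '' Ici 1) := by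
  obtain ⟨τ, hτ, hτ'⟩ : ∃ τ ∈ Icc (0 : ℝ) (1 / 2), Real.cos (2 * π * τ) = -t := by
    have hp := Real.pi_pos
    refine ⟨Real.arccos (-t) / (2 * π), ⟨div_nonneg (Real.arccos_nonneg _) (by positivity), ?_⟩, ?_⟩
    · rw [div_le_iff₀ (by positivity)]
      linarith [Real.arccos_le_pi (-t)]
    · rw [mul_div_cancel₀ _ (by positivity), Real.cos_arccos (by linarith [ht.2])
        (by linarith [ht.1])]
  have habs : ∀ s, 0 ≤ s → |ε * s| = s := by
    intro s hs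
    rcases hε with rfl | rfl <;> simp [abs_of_nonneg hs]
  rw [mem_closure_iff_nhds]
  intro U hU
  rw [nhds_prod_eq] at hU
  obtain ⟨V, hV, W, hW, hVW⟩ := mem_prod_iff.1 hU
  have h1 : Tendsto (fun s => eta (ε * s)) atTop (𝓝 0) := by
    refine (eta_tend (l := map (fun s => ε * s) atTop) ?_).comp tendsto_map
    rw [tendsto_map'_iff]
    refine tendsto_id.congr' ?_
    filter_upwards [eventually_ge_atTop 0] with s hs
    exact (habs s hs).symm
  obtain ⟨T, hT⟩ := eventually_atTop.1 (h1 hW)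
  have h2 : Continuous fun d => F d t := F_cont.comp (Continuous.prodMk_left t)
  obtain ⟨k, hk, hkV⟩ := dd_dense c hc _ (h2.continuousAt.preimage_mem_nhds hV) (⌈T⌉₊ + 1)
  have hk' : (⌈T⌉₊ : ℝ) + 1 ≤ k := by exact_mod_cast hk
  have hT' := Nat.le_ceil T
  have h0 : (0 : ℝ) ≤ ⌈T⌉₊ := Nat.cast_nonneg _
  refine ⟨_, hVW ⟨?_, hT (k + τ) (by linarith [hτ.1])⟩, k + τ, by
    show (1 : ℝ) ≤ k + τ
    linarith [hτ.1], rfl⟩
  have h3 : ⌊|ε * (k + τ)|⌋₊ = k := by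
    rw [habs _ (by linarith [hτ.1]), Nat.floor_eq_iff (by linarith [hτ.1])]
    constructor <;> linarith [hτ.1, hτ.2]
  have h4 : tt (ε * (k + τ)) = t := by
    unfold tt
    rw [← Real.cos_abs, abs_mul, abs_of_pos (by positivity : 0 < 2 * π),
      habs _ (by linarith [hτ.1]), mul_add, add_comm, mul_comm (2 * π) k,
      Real.cos_add_nat_mul_two_pi, hτ', neg_neg]
  show GG (ε * (k + τ)) ∈ V
  rw [GG, h3, h4]
  exact hkV

end Pool.Agent.H.MP_ea0cba_gt
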