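import Pool.Agent.H.MP_ea0cba_gt.Gen

open Set Topology Filter Complex
open scoped Real

namespace Pool.Agent.H.MP_ea0cba_gt

noncomputable def ex (x : ℝ) : ℂ := Complex.exp (x * I)

lemma ex_add (x y : ℝ) : ex (x + y) = ex x * ex y := by
  simp [ex, add_mul, Complex.exp_add]
@[simp] lemma ex_zero : ex 0 = 1 := by simp [ex]
lemma ex_pi : ex π = -1 := by simp [ex]
lemma ex_two_pi : ex (2 * π) = 1 := by simp [ex]
@[simp] lemma norm_ex (x : ℝ) : ‖ex x‖ = 1 := Complex.norm_exp_ofReal_mul_I x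
lemma ex_ne (x : ℝ) : ex x ≠ 0 := Complex.exp_ne_zero _
@[fun_prop] lemma ex_cont : Continuous ex := by unfold ex; fun_prop
lemma ex_re (x : ℝ) : (ex x).re = Real.cos x := Complex.exp_ofReal_mul_I_re x
lemma ex_im (x : ℝ) : (ex x).im = Real.sin x := Complex.exp_ofReal_mul_I_im x

noncomputable def phi (t : ℝ) : ℕ → ℂ := fun n => ex (2 * π * t / 2 ^ n)

lemma phi_add (s t : ℝ) : phi (s + t) = phi s * phi t := by
  funext n
  simp only [phi, Pi.mul_apply, ← ex_add]
  congr 1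
  ring
@[simp] lemma phi_zero : phi 0 = 1 := by funext n; simp [phi]
@[fun_prop] lemma phi_cont : Continuous phi := by unfold phi; fun_prop
lemma phi_one_zero : phi 1 0 = 1 := by simp [phi, ex_two_pi]
lemma phi_neg_one_zero : phi (-1) 0 = 1 := by
  have := congrFun (phi_add 1 (-1)) 0
  simpa [phi_one_zero] using this.symm
lemma phi_ne (t : ℝ) (n : ℕ) : phi t n ≠ 0 := ex_ne _
@[simp] lemma norm_phi (t : ℝ) (n : ℕ) : ‖phi t n‖ = 1 := norm_ex _

def Sol : Set (ℕ → ℂ) := closure (range phi)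

lemma sol_norm {z : ℕ → ℂ} (hz : z ∈ Sol) (n : ℕ) : ‖z n‖ = 1 := by
  have : IsClosed {z : ℕ → ℂ | ‖z n‖ = 1} := isClosed_eq (by fun_prop) continuous_const
  exact closure_minimal (by rintro _ ⟨t, rfl⟩; exact norm_phi t n) this hz

lemma sol_sq {z : ℕ → ℂ} (hz : z ∈ Sol) (n : ℕ) : z (n + 1) ^ 2 = z n := by
  have : IsClosed {z : ℕ → ℂ | z (n + 1) ^ 2 = z n} := isClosed_eq (by fun_prop) (by fun_prop)
  refine closure_minimal ?_ this hz
  rintro _ ⟨t, rfl⟩
  simp only [mem_ofPred_eq, phi, sq, ← ex_add]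
  congr 1
  ring

lemma sol_mul {z : ℕ → ℂ} (hz : z ∈ Sol) (t : ℝ) : z * phi t ∈ Sol := by
  refine map_mem_closure (f := fun z => z * phi t) (by fun_prop) hz ?_
  rintro _ ⟨s, rfl⟩
  exact ⟨s + t, phi_add s t⟩

lemma sol_compact : IsCompact Sol := by
  refine (isCompact_univ_pi fun _ : ℕ => isCompact_closedBall (0 : ℂ) 1).of_isClosed_subset
    isClosed_closure fun z hz n _ => ?_
  simp [sol_norm hz n]

lemma sol_conn : IsConnected Sol := (isConnected_range phi_cont).closure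

lemma sol_det {x y : ℕ → ℂ} (hx : x ∈ Sol) (hy : y ∈ Sol) {i j : ℕ} (hij : i ≤ j)
    (h : x j = y j) : x i = y i := by
  induction j, hij using Nat.le_induction with
  | base => exact h
  | succ j _ ih => exact ih (by rw [← sol_sq hx j, ← sol_sq hy j, h])

lemma sol_miss {A : Set (ℕ → ℂ)} (hA : IsClosed A) (hAS : A ⊆ Sol) {x : ℕ → ℂ} (hx : x ∈ Sol)
    (hxA : x ∉ A) : ∃ n, ∀ m ≥ n, ∀ a ∈ A, a m ≠ x m := by
  by_contra h
  push Not at h
  choose m hm a ha h using h
  apply hxA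
  refine hA.mem_of_tendsto (f := a) (b := atTop) ?_ (Eventually.of_forall ha)
  refine tendsto_pi_nhds.2 fun i => tendsto_const_nhds.congr' ?_
  filter_upwards [eventually_ge_atTop i] with n hn
  exact (sol_det (hAS (ha n)) hx (hn.trans (hm n)) (h n)).symm

lemma sol_indec : ¬ Dec Sol := by
  rintro ⟨A, B, hA, hB, hA', hB', cA, -, cB, nB, hAB⟩
  obtain ⟨x, hx, hxA⟩ := not_subset.1 fun h => hA' (subset_antisymm hA h)
  obtain ⟨y, hy, hyB⟩ := not_subset.1 fun h => hB' (subset_antisymm hB h)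
  obtain ⟨n1, h1⟩ := sol_miss cA.isClosed hA hx hxA
  obtain ⟨n2, h2⟩ := sol_miss cB.isClosed hB hy hyB
  set n := max n1 n2
  have hxB : x ∈ B := (hAB.symm.subset hx).resolve_left hxA
  have e1 : phi (2 ^ n) n = 1 := by
    simp only [phi]
    rw [mul_div_assoc, div_self (by positivity), mul_one, ex_two_pi]
  have e2 : phi (2 ^ n) (n + 1) = -1 := by
    simp only [phi]
    rw [← ex_pi]
    congr 1
    field_simp
    ring
  have hx' : x * phi (2 ^ n) ∈ B := by
    refine (hAB.symm.subset (sol_mul hx _)).resolve_left fun h => ?_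
    exact h1 n (le_max_left _ _) _ h (by simp [e1])
  let g : (ℕ → ℂ) → ℝ := fun z => (z (n + 1) * (starRingEnd ℂ) (y (n + 1))).im
  have hg : Continuous g := by unfold g; fun_prop
  have hneg : g (x * phi (2 ^ n)) = -g x := by simp [g, e2]; ring
  have h0 : ∃ z ∈ B, g z = 0 := by
    rcases le_total (g x) 0 with h | h
    · exact nB.2.intermediate_value hxB hx' hg.continuousOn ⟨h, by linarith⟩
    · exact nB.2.intermediate_value hx' hxB hg.continuousOn ⟨by linarith, h⟩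
  obtain ⟨z, hz, hz0⟩ := h0
  apply h2 n (le_max_right _ _) z hz
  rw [← sol_sq (hB hz) n, ← sol_sq hy n]
  have n1 := sol_norm (hB hz) (n + 1)
  have n2 := sol_norm hy (n + 1)
  simp only [g] at hz0
  generalize z (n + 1) = u at *
  generalize y (n + 1) = v at *
  have n1' : u.re ^ 2 + u.im ^ 2 = 1 := by
    have := Complex.sq_norm u
    rw [n1, normSq_apply] at this
    nlinarith
  have n2' : v.re ^ 2 + v.im ^ 2 = 1 := by
    have := Complex.sq_norm v
    rw [n2, normSq_apply] at this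
    nlinarith
  simp only [mul_im, conj_re, conj_im] at hz0
  have hd : (u.re * v.re + u.im * v.im) ^ 2 = 1 := by
    have : (u.re * v.re + u.im * v.im) ^ 2 + (u.re * -v.im + u.im * v.re) ^ 2 =
      (u.re ^ 2 + u.im ^ 2) * (v.re ^ 2 + v.im ^ 2) := by ring
    rw [hz0, n1', n2'] at this
    linarith
  have hre : u.re = (u.re * v.re + u.im * v.im) * v.re := by
    linear_combination (-u.re) * n2' - v.im * hz0
  have him : u.im = (u.re * v.re + u.im * v.im) * v.im := by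
    linear_combination (-u.im) * n2' + v.re * hz0
  generalize u.re * v.re + u.im * v.im = k at *
  apply Complex.ext
  · simp only [sq, mul_re]
    rw [hre, him]
    linear_combination (v.re * v.re - v.im * v.im) * hd
  · simp only [sq, mul_im]
    rw [hre, him]
    linear_combination (2 * v.re * v.im) * hd

def Cs : Set (ℕ → ℂ) := {c | c ∈ Sol ∧ c 0 = 1}

lemma cs_compact : IsCompact Cs :=
  sol_compact.inter_right (isClosed_eq (continuous_apply 0) continuous_const)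

lemma cs_one : (1 : ℕ → ℂ) ∈ Cs := ⟨subset_closure ⟨0, phi_zero⟩, rfl⟩

lemma cs_pow {c : ℕ → ℂ} (hc : c ∈ Cs) (n : ℕ) : c n ^ (2 ^ n) = 1 := by
  induction n with
  | zero => simpa using hc.2
  | succ n ih => rw [pow_succ', pow_mul, sol_sq hc.1 n, ih]

lemma cs_sep (c : ℕ → ℂ) (n : ℕ) : IsCompact {d | d ∈ Cs ∧ d n ≠ c n} := by
  have hfin : {u : ℂ | u ^ (2 ^ n) = 1 ∧ u ≠ c n}.Finite := by
    refine (Polynomial.nthRootsFinset (2 ^ n) (1 : ℂ)).finite_toSet.subset fun u hu => ?_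
    exact (Polynomial.mem_nthRootsFinset (by positivity) _).2 hu.1
  have : {d | d ∈ Cs ∧ d n ≠ c n} = Cs ∩ (fun d => d n) ⁻¹' {u : ℂ | u ^ (2 ^ n) = 1 ∧ u ≠ c n} := by
    ext d
    exact ⟨fun h => ⟨h.1, cs_pow h.1 n, h.2⟩, fun h => ⟨h.1, h.2.2⟩⟩
  rw [this]
  exact cs_compact.inter_right (hfin.isClosed.preimage (continuous_apply n))

lemma sol_decomp {z : ℕ → ℂ} (hz : z ∈ Sol) : ∃ c ∈ Cs, ∃ t ∈ Icc (0 : ℝ) 1, z = c * phi t := by
  have h1 : ∃ t ∈ Icc (0 : ℝ) 1, z 0 = phi t 0 := by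
    have h2 := Complex.norm_mul_exp_arg_mul_I (z 0)
    rw [sol_norm hz 0] at h2
    have h3 := Complex.neg_pi_lt_arg (z 0)
    have h4 := Complex.arg_le_pi (z 0)
    have hp := Real.pi_pos
    have h5 : z 0 = ex (arg (z 0)) := by simpa [ex] using h2.symm
    rcases le_total 0 (arg (z 0)) with h | h
    · refine ⟨arg (z 0) / (2 * π), ⟨by positivity, by rw [div_le_one (by positivity)]; linarith⟩, ?_⟩
      rw [h5]
      simp only [phi, pow_zero, div_one]
      rw [← h5]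
      conv_lhs => rw [h5]
      congr 1
      field_simp
    · refine ⟨(arg (z 0) + 2 * π) / (2 * π), ⟨div_nonneg (by linarith) (by positivity),
        by rw [div_le_one (by positivity)]; linarith⟩, ?_⟩
      simp only [phi, pow_zero, div_one]
      rw [mul_div_cancel₀ _ (by positivity), ex_add, ex_two_pi, mul_one]
      exact h5
  obtain ⟨t, ht, h⟩ := h1
  refine ⟨z * phi (-t), ⟨sol_mul hz _, ?_⟩, t, ht, ?_⟩
  · rw [Pi.mul_apply, h, ← Pi.mul_apply, ← phi_add]
    simp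
  · rw [mul_assoc, ← phi_add]
    simp

lemma exists_seq : ∃ d : ℕ → ℕ → ℂ, (∀ k, d k ∈ Cs) ∧
    ∀ c ∈ Cs, ∀ U ∈ 𝓝 c, ∀ N : ℕ, ∃ k ≥ N, d k ∈ U := by
  have : Nonempty Cs := ⟨⟨1, cs_one⟩⟩
  obtain ⟨u, hu⟩ := TopologicalSpace.exists_dense_seq Cs
  refine ⟨fun k => (u (Nat.unpair k).1).1, fun k => (u _).2, fun c hc U hU N => ?_⟩
  obtain ⟨_, hi, i, rfl⟩ := mem_closure_iff_nhds.1 (hu ⟨c, hc⟩) _
    (continuous_subtype_val.continuousAt.preimage_mem_nhds hU)
  exact ⟨Nat.pair i N, Nat.right_le_pair _ _, by simpa using hi⟩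

end Pool.Agent.H.MP_ea0cba_gt
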